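import Pool.Agent.Helper48.MV.GsxA

/-!
# Project MV, module GSX: primes in short intervals
-/

set_option autoImplicit false

namespace Pool.Agent.Helper48.MV

open Pool.Agent.Helper23.MV Finset ArithmeticFunction MeasureTheory
open Pool.Agent.Helper48.BK (ex th Sx Apx)
open Pool.Agent.Helper2.MR (ch)
open Pool.Agent.Helper15.AB (IsW)

namespace GSX

/-- the numerical estimate of the error -/
theorem eb (X X' l Z Z1 Cs Ch M η L T : ℝ) (hη : 0 < η) (hη100 : η ≤ 1 / 100) (hX1r : 1 ≤ X)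
    (hX'1' : 1 ≤ X') (hXX' : X / 2 ≤ X') (hXX'2 : X ≤ X' * X') (hl0 : 0 ≤ l) (hlsq : l ≤ √X)
    (hZ0 : 0 ≤ Z) (hZ1 : Z1 ≤ Z) (hCs : 1 ≤ Cs) (hCh : 1 ≤ Ch) (hM0 : 0 ≤ M) (hL0 : 0 ≤ L)
    (hT : T = X' ^ (1 / 2 + η / 500)) (t1 : 1 * (L + 3) ^ 4 ≤ X ^ (3 * η / 2000))
    (t2 : 2000 * (1 + M) * (L + 3) ^ 4 ≤ X ^ (1 / 4 : ℝ)) :
    12000 * (Cs * Z1 + 2 * X' ^ (-(η / 20))) * l + 3000 * X * (Ch * L / T) +
      2000 * (L + 4) * (1 + M) ≤
    (12000 * Cs + 24000 + 6000 * Ch + 1) * (l * Z + √X * X ^ (-(η / 2000))) := by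
  have hX0 : 0 < X := by linarith
  have hX'pos : 0 < X' := by linarith
  have hsq : √X = X ^ (1 / 2 : ℝ) := Real.sqrt_eq_rpow _
  have hT0 : 0 < T := by
    rw [hT]
    exact Real.rpow_pos_of_pos hX'pos _
  have hX'half : ∀ a : ℝ, 0 ≤ a → X' ^ (-(2 * a)) ≤ X ^ (-a) := by
    intro a ha
    have h1 : X' ^ (-(2 * a)) = (X' * X') ^ (-a) := by
      rw [Real.mul_rpow hX'pos.le hX'pos.le, ← Real.rpow_add hX'pos]
      congr 1
      ring
    rw [h1]
    exact Real.rpow_le_rpow_of_nonpos hX0 hXX'2 (by linarith)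
  have a1 : X' ^ (-(η / 20)) ≤ X ^ (-(η / 2000)) := by
    have := hX'half (η / 40) (by positivity)
    have e : -(2 * (η / 40)) = -(η / 20) := by ring
    rw [e] at this
    exact this.trans (Real.rpow_le_rpow_of_exponent_le hX1r (by linarith))
  have b1 : 12000 * (Cs * Z1 + 2 * X' ^ (-(η / 20))) * l ≤ 12000 * Cs * (l * Z) +
      24000 * (√X * X ^ (-(η / 2000))) := by
    have c1 : Cs * Z1 * l ≤ Cs * Z * l := by
      gcongr
    have c2 : X' ^ (-(η / 20)) * l ≤ X ^ (-(η / 2000)) * √X :=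
      mul_le_mul a1 hlsq hl0 (by positivity)
    have c3 : ∀ a b l' : ℝ, 12000 * (a + 2 * b) * l' = 12000 * (a * l') + 24000 * (b * l') := by
      intro a b l'
      ring
    rw [c3]
    have c4 : 12000 * Cs * (l * Z) =
        12000 * (Cs * Z * l) := by ring
    rw [c4]
    have c5 : √X * X ^ (-(η / 2000)) = X ^ (-(η / 2000)) * √X := by ring
    rw [c5]
    linarith
  have b2 : 3000 * X * (Ch * L / T) ≤ 6000 * Ch * (√X * X ^ (-(η / 2000))) := by
    have c1 : X ^ (1 / 2 + η / 500) / 2 ≤ T := by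
      have d1 : (X / 2) ^ (1 / 2 + η / 500) ≤ T := by
        rw [hT]
        exact Real.rpow_le_rpow (by positivity) hXX' (by positivity)
      refine le_trans ?_ d1
      rw [Real.div_rpow hX0.le (by norm_num)]
      apply div_le_div_of_nonneg_left (by positivity) (by positivity)
      calc (2 : ℝ) ^ (1 / 2 + η / 500) ≤ (2 : ℝ) ^ (1 : ℝ) :=
            Real.rpow_le_rpow_of_exponent_le (by norm_num) (by linarith)
        _ = 2 := Real.rpow_one 2
    have c2 : Ch * L / T ≤ Ch * L / (X ^ (1 / 2 + η / 500) / 2) :=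
      div_le_div_of_nonneg_left (by positivity) (by positivity) c1
    have c3 : 3000 * X * (Ch * L / (X ^ (1 / 2 + η / 500) / 2)) =
        6000 * Ch * L * X ^ (1 / 2 - η / 500) := by
      have d1 : X = X ^ (1 / 2 - η / 500) * X ^ (1 / 2 + η / 500) := by
        rw [← Real.rpow_add hX0]
        have : (1 / 2 - η / 500 + (1 / 2 + η / 500)) = 1 := by ring
        rw [this, Real.rpow_one]
      have d2 : X ^ (1 / 2 + η / 500) ≠ 0 := by positivity
      have d3 : ∀ x a b : ℝ, x = a * b → b ≠ 0 →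
          3000 * x * (Ch * L / (b / 2)) = 6000 * Ch * L * a := by
        intro x a b h hb
        rw [h]
        field_simp
        ring
      exact d3 _ _ _ d1 d2
    have c4 : L ≤ X ^ (3 * η / 2000) := by
      refine le_trans ?_ t1
      have d1 : L + 3 ≤ (L + 3) ^ 4 := le_self_pow₀ (by linarith) (by norm_num)
      linarith
    have c5 : X ^ (3 * η / 2000) * X ^ (1 / 2 - η / 500) =
        √X * X ^ (-(η / 2000)) := by
      rw [hsq, ← Real.rpow_add hX0, ← Real.rpow_add hX0]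
      congr 1
      ring
    calc 3000 * X * (Ch * L / T)
        ≤ 3000 * X * (Ch * L / (X ^ (1 / 2 + η / 500) / 2)) :=
          mul_le_mul_of_nonneg_left c2 (by positivity)
      _ = 6000 * Ch * L * X ^ (1 / 2 - η / 500) := c3
      _ ≤ 6000 * Ch * X ^ (3 * η / 2000) * X ^ (1 / 2 - η / 500) := by gcongr
      _ = 6000 * Ch * (√X * X ^ (-(η / 2000))) := by rw [← c5]; ring
  have b3 : 2000 * (L + 4) * (1 + M) ≤ 1 * (√X * X ^ (-(η / 2000))) := by
    have c1 : (L + 4) ≤ (L + 3) ^ 4 := by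
      have d1 : (L + 3) * 3 ≤ (L + 3) * (L + 3) :=
        mul_le_mul_of_nonneg_left (by linarith) (by linarith)
      have d2 : (L + 3) ^ 2 ≤ (L + 3) ^ 4 := pow_le_pow_right₀ (by linarith) (by norm_num)
      rw [sq] at d2
      linarith
    have c2 : 2000 * (L + 4) * (1 + M) ≤ 2000 * (1 + M) * (L + 3) ^ 4 := by
      have := mul_le_mul_of_nonneg_left c1 (by positivity : 0 ≤ 2000 * (1 + M))
      linarith
    have c3 : X ^ (1 / 4 : ℝ) ≤ √X * X ^ (-(η / 2000)) := by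
      rw [hsq, ← Real.rpow_add hX0]
      exact Real.rpow_le_rpow_of_exponent_le hX1r (by linarith)
    linarith
  have hp : 0 ≤ √X * X ^ (-(η / 2000)) := by positivity
  have hq : 0 ≤ l * Z := by positivity
  have hr1 : 0 ≤ (24000 + 6000 * Ch + 1) * (l * Z) := mul_nonneg (by linarith) hq
  have hr2 : 0 ≤ 12000 * Cs * (√X * X ^ (-(η / 2000))) := mul_nonneg (by linarith) hp
  have hE' : (12000 * Cs + 24000 + 6000 * Ch + 1) * (l * Z + √X * X ^ (-(η / 2000))) =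
      12000 * Cs * (l * Z) + 24000 * (√X * X ^ (-(η / 2000))) +
      6000 * Ch * (√X * X ^ (-(η / 2000))) + 1 * (√X * X ^ (-(η / 2000))) +
      (24000 + 6000 * Ch + 1) * (l * Z) + 12000 * Cs * (√X * X ^ (-(η / 2000))) := by
    ring
  rw [hE']
  linarith

end GSX

open GSX

/-- MODULE GSX. -/
theorem hGsx : StFin → StSpb → StShc → StGs := by
  intro hF hS hC
  obtain ⟨w, hw⟩ := Pool.Agent.Helper15.AB.hWE
  obtain ⟨M, hM0, hM⟩ := Pool.Agent.Helper15.AB.hT1.exists_lip w hw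
  have hM' : ∀ s t : ℝ, s ≤ t → |w s - w t| ≤ M * (t - s) := fun s t hst =>
    (hM s t hst).trans (mul_le_mul_of_nonneg_left (cl_lip s t hst) hM0)
  obtain ⟨Cs, hCs, η₁, hη₁, hη₁', hS⟩ := hS w hw
  obtain ⟨Ch, hCh, hC⟩ := hC w hw
  obtain ⟨hth, Ct, hCt, hth2⟩ := Pool.Agent.Helper48.BK.hTh
  refine ⟨η₁, hη₁, hη₁', fun η hη hηle => ?_⟩
  have hη100 : η ≤ 1 / 100 := hηle.trans hη₁'
  obtain ⟨X1, hX1, hS⟩ := hS η hη hηle
  obtain ⟨x1, t1⟩ := thr 1 (3 * η / 2000) (by positivity)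
  obtain ⟨x2, t2⟩ := thr (2000 * (1 + M)) (1 / 4) (by positivity)
  obtain ⟨x3, t3⟩ := thr 576000000 (η / 150) (by positivity)
  obtain ⟨x4, t4⟩ := thr (8 * Ct) (1 / 4) (by positivity)
  refine ⟨12000 * Cs + 24000 + 6000 * Ch + 1, max (max (max x1 x2) (max x3 x4))
    (max 1000000 (2 * X1 + 10)), by linarith, (by norm_num : (2 : ℝ) ≤ 1000000).trans
      ((le_max_left _ _).trans (le_max_right _ _)), ?_⟩
  intro X o c l hX ho hc hl
  have g1 : x1 ≤ X := (((le_max_left _ _).trans (le_max_left _ _)).trans (le_max_left _ _)).trans hX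
  have g2 : x2 ≤ X := (((le_max_right _ _).trans (le_max_left _ _)).trans (le_max_left _ _)).trans hX
  have g3 : x3 ≤ X := (((le_max_left _ _).trans (le_max_right _ _)).trans (le_max_left _ _)).trans hX
  have g4 : x4 ≤ X := (((le_max_right _ _).trans (le_max_right _ _)).trans (le_max_left _ _)).trans hX
  have g5 : (1000000 : ℝ) ≤ X := ((le_max_left _ _).trans (le_max_right _ _)).trans hX
  have g6 : 2 * (X1 : ℝ) + 10 ≤ X := ((le_max_right _ _).trans (le_max_right _ _)).trans hX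
  replace t1 := t1 X g1
  replace t2 := t2 X g2
  replace t3 := t3 X g3
  replace t4 := t4 X g4
  have hXn : 1000000 ≤ X := by exact_mod_cast g5
  have hX0 : (0 : ℝ) < X := by linarith
  have hX1r : (1 : ℝ) ≤ X := by linarith
  set L := Real.log (X : ℝ) with hL
  have hL0 : 0 ≤ L := Real.log_nonneg hX1r
  have hob : OKb o η := fun e δ h => by
    obtain ⟨h1, -, h3, h4, h5, h6⟩ := ho e δ h
    exact ⟨h1, h3, h4, h5, h6⟩
  have hob1 : OKb o 1 := fun e δ h => by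
    obtain ⟨h1, h3, h4, h5, h6⟩ := hob e δ h
    exact ⟨h1, h3, by linarith, h5, h6⟩
  set s := Nat.sqrt X with hs
  -- negative powers
  have hsq : √(X : ℝ) = (X : ℝ) ^ (1 / 2 : ℝ) := Real.sqrt_eq_rpow _
  set E : ℝ := (12000 * Cs + 24000 + 6000 * Ch + 1) *
    (l * ZS o c (2 * η) X (√(X : ℝ)) + √(X : ℝ) * (X : ℝ) ^ (-(η / 2000))) with hE
  have hZS0 : 0 ≤ ZS o c (2 * η) X (√(X : ℝ)) := ZS_nonneg _ _ _ _ _ (Real.sqrt_pos.2 hX0)
  have hE0 : 0 ≤ E := by
    rw [hE]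
    positivity
  have hRHS : 0 ≤ (X : ℝ) * X * (X : ℝ) ^ (-(η / 100)) := by positivity
  rcases Nat.eq_zero_or_pos l with hl0 | hl1
  · have : ∀ y ∈ Icc (X - 6 * s) (2 * X + s),
        (max 0 (‖∑ m ∈ Ioc y (y + l), (((th m : ℝ) : ℂ) * c.ev m - ((mwt o c m : ℝ) : ℂ))‖ -
          E)) ^ 2 = 0 := by
      intro y _
      rw [hl0, add_zero, Ioc_self, Finset.sum_empty, norm_zero, max_eq_left (by linarith)]
      norm_num
    rw [Finset.sum_congr rfl this, Finset.sum_const_zero]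
    exact hRHS
  set X' : ℕ := 17 * X / 20 with hX'
  have hX'1 : 20 * X' ≤ 17 * X := by omega
  have hX'2 : 17 * X ≤ 20 * X' + 19 := by omega
  have hX'1r : 20 * (X' : ℝ) ≤ 17 * X := by exact_mod_cast hX'1
  have hX'2r : 17 * (X : ℝ) ≤ 20 * X' + 19 := by exact_mod_cast hX'2
  have hX'pos : (0 : ℝ) < X' := by linarith
  have hX'1' : (1 : ℝ) ≤ X' := by linarith
  have hXX' : (X : ℝ) / 2 ≤ X' := by linarith
  have hXX'2 : (X : ℝ) ≤ (X' : ℝ) * X' := by
    have h1 : (2 : ℝ) * X' ≤ X' * X' := mul_le_mul_of_nonneg_right (by linarith) hX'pos.le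
    linarith
  have hss : s * s ≤ X := Nat.sqrt_le X
  have hssr : (s : ℝ) * s ≤ X := by exact_mod_cast hss
  have hs1 : (s : ℝ) ≤ X / 1000 := by
    by_contra hcon
    rw [not_le] at hcon
    have h1 : (1000 : ℝ) < s := by linarith
    have h2 : (1000 : ℝ) * s ≤ s * s := mul_le_mul_of_nonneg_right h1.le (by linarith)
    linarith
  have hlr : (l : ℝ) ≤ s := by exact_mod_cast hl
  have hlX' : l ≤ X' := by
    have : (l : ℝ) ≤ X' := by linarith
    exact_mod_cast this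
  have hlsq : (l : ℝ) ≤ √(X : ℝ) := by
    refine hlr.trans (Real.le_sqrt_of_sq_le ?_)
    rw [sq]
    exact hssr
  set T : ℝ := (X' : ℝ) ^ (1 / 2 + η / 500) with hT
  have hT0 : 0 < T := Real.rpow_pos_of_pos hX'pos _
  have hT1 : 1 ≤ T := Real.one_le_rpow hX'1' (by linarith)
  have hTX : T ≤ X' := by
    rw [hT]
    nth_rewrite 2 [← Real.rpow_one (X' : ℝ)]
    exact Real.rpow_le_rpow_of_exponent_le hX'1' (by linarith)
  have hX1X' : X1 ≤ X' := by
    have : (X1 : ℝ) ≤ X' := by linarith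
    exact_mod_cast this
  have hcX' : (c.r : ℝ) ≤ (X' : ℝ) ^ (η / 400) := by
    refine hc.trans ?_
    calc (X : ℝ) ^ (η / 1000) ≤ ((X' : ℝ) * X') ^ (η / 1000) :=
          Real.rpow_le_rpow hX0.le hXX'2 (by positivity)
      _ = (X' : ℝ) ^ (η / 500) := by
          rw [Real.mul_rpow hX'pos.le hX'pos.le, ← Real.rpow_add hX'pos]
          congr 1
          ring
      _ ≤ _ := Real.rpow_le_rpow_of_exponent_le hX'1' (by linarith)
  obtain ⟨W2, w1, w2, w3, w4⟩ := hS X' o c hX1X' hob hcX'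
  set κ : ℝ := Cs * ZS o c (2 * η) X' X' + 2 * (X' : ℝ) ^ (-(η / 20)) with hκ
  have hZ1 : ZS o c (2 * η) X' X' ≤ ZS o c (2 * η) X (√(X : ℝ)) := by
    apply ZS_le hF _ _ _ _ _ _ _ (by linarith) (by linarith) (Real.sqrt_pos.2 hX0)
    rw [Real.sqrt_le_left hX'pos.le, sq]
    exact hXX'2
  have hκ0 : 0 ≤ κ := by
    have := ZS_nonneg o c (2 * η) X' X' hX'pos
    rw [hκ]
    positivity
  have hEb := eb X X' l (ZS o c (2 * η) X (√(X : ℝ))) (ZS o c (2 * η) X' X') Cs Ch M η L T hη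
    hη100 hX1r hX'1' hXX' hXX'2 (Nat.cast_nonneg _) hlsq hZS0 hZ1 hCs hCh hM0 hL0 hT t1 t2
  have main := total w hw M hM0 hM' Ch (by linarith) Ct hth hth2 o c η hob X X' l s T κ E hXn hs hX'
    hl1 hl hT0 hκ0 (fun x h1 h2 => hC X' l o c T x (by
      have : (2 : ℝ) ≤ X' := by linarith
      exact_mod_cast this) hlX' hT1 hTX hob1 h1 h2) W2 w1 w2 w3 hEb
  refine main.trans ?_
  have hJ : (∫ u, ‖W2 u‖ ^ 2) ≤ 2 * (X : ℝ) ^ (-(η / 60)) := by
    refine w4.trans ?_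
    have h1 : (X' : ℝ) ^ (-(η / 60)) ≤ ((X : ℝ) / 2) ^ (-(η / 60)) :=
      Real.rpow_le_rpow_of_nonpos (by positivity) hXX' (by linarith)
    refine h1.trans ?_
    rw [Real.div_rpow hX0.le (by norm_num)]
    rw [div_le_iff₀ (by positivity)]
    have h2 : (1 / 2 : ℝ) ≤ (2 : ℝ) ^ (-(η / 60)) := by
      have h3 : (1 / 2 : ℝ) = (2 : ℝ) ^ (-1 : ℝ) := by
        rw [Real.rpow_neg_one]
        norm_num
      rw [h3]
      exact Real.rpow_le_rpow_of_exponent_le (by norm_num) (by linarith)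
    have h4 : 0 ≤ 2 * (X : ℝ) ^ (-(η / 60)) := by positivity
    have h5 := mul_le_mul_of_nonneg_left h2 h4
    linarith
  have f1 : 144000000 * (X : ℝ) ^ 2 * (∫ u, ‖W2 u‖ ^ 2) ≤
      1 / 2 * ((X : ℝ) * X * (X : ℝ) ^ (-(η / 100))) := by
    have h1 : 144000000 * (X : ℝ) ^ 2 * (∫ u, ‖W2 u‖ ^ 2) ≤
        144000000 * (X : ℝ) ^ 2 * (2 * (X : ℝ) ^ (-(η / 60))) :=
      mul_le_mul_of_nonneg_left hJ (by positivity)
    have h2 : 576000000 ≤ (X : ℝ) ^ (η / 150) := by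
      refine le_trans ?_ t3
      have : (1 : ℝ) ≤ (L + 3) ^ 4 := one_le_pow₀ (by linarith)
      linarith
    have h3 : (X : ℝ) ^ (-(η / 100)) = (X : ℝ) ^ (η / 150) * (X : ℝ) ^ (-(η / 60)) := by
      rw [← Real.rpow_add hX0]
      congr 1
      ring
    have h4 : 576000000 * (X : ℝ) ^ (-(η / 60)) ≤ (X : ℝ) ^ (-(η / 100)) := by
      rw [h3]
      exact mul_le_mul_of_nonneg_right h2 (by positivity)
    have h5 := mul_le_mul_of_nonneg_left h4 (by positivity : 0 ≤ (X : ℝ) * X)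
    have h6 : ∀ a b : ℝ, 144000000 * a ^ 2 * (2 * b) = 1 / 2 * (a * a * (576000000 * b)) := by
      intro a b
      ring
    rw [h6] at h1
    linarith
  have f2 : 2 * (X * (Ct * √(((3 * X : ℕ) : ℝ)) * Real.log ((3 * X : ℕ) : ℝ) ^ 3)) ≤
      1 / 2 * ((X : ℝ) * X * (X : ℝ) ^ (-(η / 100))) := by
    have hlog3 : Real.log 3 ≤ 2 := by
      rw [Real.log_le_iff_le_exp (by norm_num)]
      have h5 := Real.add_one_le_exp (2 : ℝ)
      linarith
    push_cast
    have h1 : √(3 * (X : ℝ)) ≤ 2 * √(X : ℝ) := by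
      have : 2 * √(X : ℝ) = √(4 * X) := by
        rw [Real.sqrt_mul (by norm_num), show (4 : ℝ) = 2 ^ 2 by norm_num,
          Real.sqrt_sq (by norm_num)]
      rw [this]
      apply Real.sqrt_le_sqrt
      linarith
    have h2 : Real.log (3 * (X : ℝ)) ≤ L + 3 := by
      rw [Real.log_mul (by norm_num) hX0.ne']
      linarith
    have h3 : 0 ≤ Real.log (3 * (X : ℝ)) := Real.log_nonneg (by linarith)
    have h4 : Real.log (3 * (X : ℝ)) ^ 3 ≤ (L + 3) ^ 4 := by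
      calc Real.log (3 * (X : ℝ)) ^ 3 ≤ (L + 3) ^ 3 := pow_le_pow_left₀ h3 h2 3
        _ ≤ (L + 3) ^ 4 := pow_le_pow_right₀ (by linarith) (by norm_num)
    have h5 : (X : ℝ) ^ (1 / 4 : ℝ) * √(X : ℝ) ≤ X * (X : ℝ) ^ (-(η / 100)) := by
      rw [hsq, ← Real.rpow_add hX0]
      have : (X : ℝ) * (X : ℝ) ^ (-(η / 100)) = (X : ℝ) ^ (1 - η / 100) := by
        nth_rewrite 1 [← Real.rpow_one (X : ℝ)]
        rw [← Real.rpow_add hX0]
        congr 1
      rw [this]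
      exact Real.rpow_le_rpow_of_exponent_le hX1r (by linarith)
    calc 2 * (X * (Ct * √(3 * (X : ℝ)) * Real.log (3 * (X : ℝ)) ^ 3))
        ≤ 2 * (X * (Ct * (2 * √(X : ℝ)) * (L + 3) ^ 4)) := by gcongr
      _ = 1 / 2 * (X * ((8 * Ct * (L + 3) ^ 4) * √(X : ℝ))) := by ring
      _ ≤ 1 / 2 * (X * ((X : ℝ) ^ (1 / 4 : ℝ) * √(X : ℝ))) := by gcongr
      _ ≤ 1 / 2 * (X * (X * (X : ℝ) ^ (-(η / 100)))) := by gcongr
      _ = _ := by ring
  linarith

end Pool.Agent.Helper48.MV
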