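import Pool.Agent.Helper23.MV.StP

/-!
# Project MV, module SPB: short Gaussian windows
-/

set_option autoImplicit false

namespace Pool.Agent.Helper48.MV

open Pool.Agent.Helper23.MV Finset ArithmeticFunction MeasureTheory
open Pool.Agent.Helper48.BK (ex th Sx Apx)
open Pool.Agent.Helper2.MR (ch)
open Pool.Agent.Helper15.AB (IsW)

private lemma SPB_ch_cont (n : ℕ) : Continuous (fun t : ℝ => ch t n) := by
  unfold ch
  fun_prop

private lemma SPB_norm_ch (t : ℝ) (n : ℕ) : ‖ch t n‖ = 1 := by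
  unfold ch
  rw [Complex.norm_exp_ofReal_mul_I]

private lemma SPB_GO_cont (o : Option (PCh × ℝ)) (c : PCh) (w : ℝ → ℝ) (X : ℕ) :
    Continuous (fun t => GO o c w X t) := by
  unfold GO
  exact continuous_finsetSum _ fun m _ => continuous_const.mul (SPB_ch_cont m)

private lemma SPB_mwt_le (o : Option (PCh × ℝ)) (c : PCh) (η : ℝ) (ho : OKb o η) (m : ℕ)
    (hm : 1 ≤ m) : |mwt o c m| ≤ 2 := by
  have h1 : (1 : ℝ) ≤ m := by exact_mod_cast hm
  have h3 : ∀ δ : ℝ, 0 < δ → 0 ≤ (m : ℝ) ^ (-δ) ∧ (m : ℝ) ^ (-δ) ≤ 1 := fun δ hδ =>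
    ⟨Real.rpow_nonneg (by linarith) _,
      Real.rpow_le_one_of_one_le_of_nonpos h1 (by linarith)⟩
  rcases o with _ | ⟨e, δ⟩
  · unfold mwt
    simp only [sub_zero]
    split_ifs <;> norm_num
  · obtain ⟨-, hδ, -⟩ := ho e δ rfl
    obtain ⟨h4, h5⟩ := h3 δ hδ
    unfold mwt
    simp only
    rw [abs_le]
    split_ifs <;> constructor <;> linarith

private lemma SPB_gm_le (o : Option (PCh × ℝ)) (c : PCh) (η : ℝ) (ho : OKb o η) (w : ℝ → ℝ)
    (hw : IsW w) (X m : ℕ) (hm : 1 ≤ m) : ‖gm o c w X m‖ ≤ 3 * m := by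
  have h1 : (1 : ℝ) ≤ m := by exact_mod_cast hm
  unfold gm
  rw [norm_mul, Complex.norm_real, Real.norm_eq_abs, abs_of_nonneg (hw.nonneg _)]
  have h2 : ‖((Λ m : ℝ) : ℂ) * c.ev m - ((mwt o c m : ℝ) : ℂ)‖ ≤ 3 * m := by
    refine (norm_sub_le _ _).trans ?_
    rw [norm_mul, Complex.norm_real, Complex.norm_real, Real.norm_eq_abs, Real.norm_eq_abs,
      abs_of_nonneg vonMangoldt_nonneg]
    have h3 : ‖c.ev m‖ ≤ 1 := DirichletCharacter.norm_le_one _ _
    have h4 : Λ m ≤ m := vonMangoldt_le_log.trans ((Real.log_le_sub_one_of_pos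
      (by linarith)).trans (by linarith))
    have h5 := SPB_mwt_le o c η ho m hm
    have h6 : (Λ m : ℝ) * ‖c.ev m‖ ≤ m * 1 :=
      mul_le_mul h4 h3 (norm_nonneg _) (by linarith)
    linarith
  calc w (Real.log (m / X)) * ‖((Λ m : ℝ) : ℂ) * c.ev m - ((mwt o c m : ℝ) : ℂ)‖
      ≤ 1 * (3 * m) := mul_le_mul (hw.le_one _) h2 (norm_nonneg _) zero_le_one
    _ = 3 * m := one_mul _

private lemma SPB_GO_le (o : Option (PCh × ℝ)) (c : PCh) (η : ℝ) (ho : OKb o η) (w : ℝ → ℝ)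
    (hw : IsW w) (X : ℕ) (t : ℝ) : ‖GO o c w X t‖ ≤ 9 * X := by
  unfold GO
  refine (norm_sum_le _ _).trans ?_
  calc ∑ m ∈ Icc 1 (3 * X), ‖gm o c w X m / m * ch t m‖ ≤ ∑ m ∈ Icc 1 (3 * X), (3 : ℝ) := by
        apply Finset.sum_le_sum
        intro m hm
        rw [Finset.mem_Icc] at hm
        have h1 : (0 : ℝ) < m := by exact_mod_cast hm.1
        rw [norm_mul, norm_div, SPB_norm_ch, mul_one, Complex.norm_natCast, div_le_iff₀ h1]
        exact SPB_gm_le o c η ho w hw X m hm.1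
    _ = 9 * X := by
        rw [Finset.sum_const, Nat.card_Icc, nsmul_eq_mul]
        push_cast [Nat.add_sub_cancel]
        ring

private lemma SPB_Gd_meas (c : PCh) (η : ℝ) (X : ℕ) : MeasurableSet (Gd c η X) := by
  have h : Gd c η X = ({t : ℝ | (X : ℝ) ^ (η / 10) ≤ |t|} ∩
      {t : ℝ | |t| ≤ (X : ℝ) ^ (1 / 2 + η / 400)}) ∩
      ⋂ ρ ∈ ZF c (2 * η) X, {t : ℝ | (X : ℝ) ^ (η / 10) ≤ |ρ.im - t|} := by
    ext t
    simp only [Gd, Set.mem_ofPred_eq, Set.mem_inter_iff, Set.mem_iInter]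
    tauto
  rw [h]
  refine ((measurableSet_le measurable_const (by fun_prop)).inter
    (measurableSet_le (by fun_prop) measurable_const)).inter ?_
  exact Finset.measurableSet_biInter _ fun ρ _ => measurableSet_le measurable_const (by fun_prop)

/-- the Gaussian tail -/
private lemma SPB_tail (G : ℝ → ℂ) (hG : Continuous G) (M : ℝ) (hM : ∀ t, ‖G t‖ ≤ M) (T V : ℝ)
    (hT : 0 < T) (hV : 0 < V) :
    Integrable (fun t => Real.exp (-(t ^ 2 / (2 * T ^ 2))) * ‖G t‖) ∧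
    ∫ t in {t : ℝ | V < |t|}, Real.exp (-(t ^ 2 / (2 * T ^ 2))) * ‖G t‖ ≤
      M * (Real.exp (-(V ^ 2 / (4 * T ^ 2))) * (4 * T)) := by
  have hM0 : 0 ≤ M := (norm_nonneg _).trans (hM 0)
  have i1 : ∀ b : ℝ, 0 < b → Integrable (fun t : ℝ => Real.exp (-(t ^ 2 / b))) := by
    intro b hb
    have := integrable_exp_neg_mul_sq (b := 1 / b) (by positivity)
    refine this.congr (Filter.Eventually.of_forall fun t => ?_)
    simp only
    congr 1
    field_simp
  have i2 : Integrable (fun t => Real.exp (-(t ^ 2 / (2 * T ^ 2))) * ‖G t‖) := by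
    refine ((i1 (2 * T ^ 2) (by positivity)).mul_const M).mono'
      (by
        apply Continuous.aestronglyMeasurable
        fun_prop) (Filter.Eventually.of_forall fun t => ?_)
    rw [Real.norm_eq_abs, abs_of_nonneg (by positivity)]
    exact mul_le_mul_of_nonneg_left (hM t) (Real.exp_pos _).le
  refine ⟨i2, ?_⟩
  have hmeas : MeasurableSet {t : ℝ | V < |t|} := measurableSet_lt measurable_const (by fun_prop)
  have i3 : Integrable (fun t : ℝ => Real.exp (-(V ^ 2 / (4 * T ^ 2))) * M *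
      Real.exp (-(t ^ 2 / (4 * T ^ 2)))) :=
    (i1 (4 * T ^ 2) (by positivity)).const_mul _
  have s1 : ∫ t in {t : ℝ | V < |t|}, Real.exp (-(t ^ 2 / (2 * T ^ 2))) * ‖G t‖ ≤
      ∫ t in {t : ℝ | V < |t|}, Real.exp (-(V ^ 2 / (4 * T ^ 2))) * M *
        Real.exp (-(t ^ 2 / (4 * T ^ 2))) := by
    apply setIntegral_mono_on i2.integrableOn i3.integrableOn hmeas
    intro t ht
    have h1 : V ^ 2 ≤ t ^ 2 := by
      rw [← sq_abs t]
      exact pow_le_pow_left₀ hV.le (le_of_lt ht) 2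
    have h2 : Real.exp (-(t ^ 2 / (2 * T ^ 2))) ≤
        Real.exp (-(V ^ 2 / (4 * T ^ 2))) * Real.exp (-(t ^ 2 / (4 * T ^ 2))) := by
      rw [← Real.exp_add]
      apply Real.exp_le_exp.2
      have h3 : V ^ 2 / (4 * T ^ 2) ≤ t ^ 2 / (4 * T ^ 2) :=
        div_le_div_of_nonneg_right h1 (by positivity)
      have h4 : t ^ 2 / (2 * T ^ 2) = t ^ 2 / (4 * T ^ 2) + t ^ 2 / (4 * T ^ 2) := by
        field_simp
        ring
      rw [h4]
      linarith
    calc Real.exp (-(t ^ 2 / (2 * T ^ 2))) * ‖G t‖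
        ≤ (Real.exp (-(V ^ 2 / (4 * T ^ 2))) * Real.exp (-(t ^ 2 / (4 * T ^ 2)))) * M :=
          mul_le_mul h2 (hM t) (norm_nonneg _) (by positivity)
      _ = Real.exp (-(V ^ 2 / (4 * T ^ 2))) * M * Real.exp (-(t ^ 2 / (4 * T ^ 2))) := by ring
  refine s1.trans ?_
  have s2 : ∫ t in {t : ℝ | V < |t|}, Real.exp (-(V ^ 2 / (4 * T ^ 2))) * M *
        Real.exp (-(t ^ 2 / (4 * T ^ 2))) ≤
      ∫ t, Real.exp (-(V ^ 2 / (4 * T ^ 2))) * M * Real.exp (-(t ^ 2 / (4 * T ^ 2))) :=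
    setIntegral_le_integral i3 (Filter.Eventually.of_forall fun t => by
      simp only [Pi.zero_apply]
      positivity)
  refine s2.trans ?_
  rw [integral_const_mul]
  have s3 : ∫ t : ℝ, Real.exp (-(t ^ 2 / (4 * T ^ 2))) = √(Real.pi * (4 * T ^ 2)) := by
    have := integral_gaussian (1 / (4 * T ^ 2))
    have e : (Real.pi / (1 / (4 * T ^ 2))) = Real.pi * (4 * T ^ 2) := by
      field_simp
    rw [e] at this
    rw [← this]
    apply integral_congr_ae
    refine Filter.Eventually.of_forall fun t => ?_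
    simp only
    congr 1
    field_simp
  have s4 : √(Real.pi * (4 * T ^ 2)) ≤ 4 * T := by
    apply Real.sqrt_le_iff.2
    refine ⟨by positivity, ?_⟩
    have := Real.pi_lt_four
    nlinarith [sq_nonneg T]
  rw [s3]
  calc Real.exp (-(V ^ 2 / (4 * T ^ 2))) * M * √(Real.pi * (4 * T ^ 2))
      ≤ Real.exp (-(V ^ 2 / (4 * T ^ 2))) * M * (4 * T) :=
        mul_le_mul_of_nonneg_left s4 (by positivity)
    _ = M * (Real.exp (-(V ^ 2 / (4 * T ^ 2))) * (4 * T)) := by ring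

/-- the threshold -/
private lemma SPB_thr (a : ℝ) (ha : 0 < a) : ∃ X0 : ℝ, 1 ≤ X0 ∧ ∀ X : ℝ, X0 ≤ X →
    36 * X ^ (3 : ℝ) * Real.exp (-(X ^ a / 4)) ≤ 1 := by
  have h1 := tendsto_rpow_mul_exp_neg_mul_atTop_nhds_zero (3 / a) (1 / 4) (by norm_num)
  have h2 := h1.comp (tendsto_rpow_atTop ha)
  have h3 : ∀ᶠ X : ℝ in Filter.atTop, (X ^ a) ^ (3 / a) * Real.exp (-(1 / 4) * X ^ a) < 1 / 36 :=
    h2.eventually_lt_const (by norm_num)
  obtain ⟨X0, hX0⟩ := Filter.eventually_atTop.1 h3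
  refine ⟨max X0 1, le_max_right _ _, fun X hX => ?_⟩
  have h4 := hX0 X ((le_max_left _ _).trans hX)
  have hX1 : (1 : ℝ) ≤ X := (le_max_right _ _).trans hX
  rw [← Real.rpow_mul (by linarith), mul_div_cancel₀ _ ha.ne'] at h4
  have e : -(1 / 4) * X ^ a = -(X ^ a / 4) := by ring
  rw [e] at h4
  linarith

/-- MODULE SPB. -/
theorem hSpb : StBdl → StGg → StGwf → StSpb := by
  intro hB hG hW w hw
  obtain ⟨⟨η₁, hη₁, hη₁', hB1⟩, hB2⟩ := hB
  obtain ⟨C, hC, η₂, hη₂, hη₂', hB2⟩ := hB2 w hw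
  obtain ⟨η₃, hη₃, hη₃', hG⟩ := hG w hw
  refine ⟨C, hC, min η₁ (min η₂ η₃), lt_min hη₁ (lt_min hη₂ hη₃), (min_le_left _ _).trans hη₁',
    fun η hη hηle => ?_⟩
  obtain ⟨X1, hX1, hB1⟩ := hB1 η hη (hηle.trans (min_le_left _ _))
  obtain ⟨X2, hX2, hB2⟩ := hB2 η hη (hηle.trans ((min_le_right _ _).trans (min_le_left _ _)))
  obtain ⟨X3, hX3, hG⟩ := hG η hη (hηle.trans ((min_le_right _ _).trans (min_le_right _ _)))
  obtain ⟨X4, hX4, hthr⟩ := SPB_thr (η / 1000) (by positivity)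
  have hη100 : η ≤ 1 / 100 := hηle.trans ((min_le_left _ _).trans hη₁')
  refine ⟨max (max X1 X2) (max X3 ⌈X4⌉₊), hX1.trans ((le_max_left _ _).trans (le_max_left _ _)), ?_⟩
  intro X o c hX ho hc
  have g1 : X1 ≤ X := ((le_max_left _ _).trans (le_max_left _ _)).trans hX
  have g2 : X2 ≤ X := ((le_max_right _ _).trans (le_max_left _ _)).trans hX
  have g3 : X3 ≤ X := ((le_max_left _ _).trans (le_max_right _ _)).trans hX
  have g4 : X4 ≤ (X : ℝ) := (Nat.le_ceil X4).trans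
    (by exact_mod_cast ((le_max_right _ _).trans (le_max_right _ _)).trans hX)
  have hXn : 1 ≤ X := by omega
  have hXr : (1 : ℝ) ≤ X := by exact_mod_cast hXn
  have hX0 : (0 : ℝ) < X := by linarith
  set T : ℝ := (X : ℝ) ^ (1 / 2 + η / 500) with hT
  set V : ℝ := (X : ℝ) ^ (1 / 2 + η / 400) with hV
  have hT0 : 0 < T := Real.rpow_pos_of_pos hX0 _
  have hV0 : 0 < V := Real.rpow_pos_of_pos hX0 _
  obtain ⟨W2, c1, c2, c3, c4⟩ := hW o c w X T (Gd c η X) hXn hT0 (SPB_Gd_meas c η X)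
  refine ⟨W2, c1, fun u => (c2 u).trans ?_, c3, c4.trans ?_⟩
  · -- the complement
    obtain ⟨b1, b2⟩ := hB1 X c g1 hc
    set A : Set ℝ := Bd c η X ∩ Set.Icc (-V) V with hA
    set B : Set ℝ := {t : ℝ | V < |t|} with hBB
    have hAm : MeasurableSet A := b1.inter measurableSet_Icc
    have hBm : MeasurableSet B := measurableSet_lt measurable_const (by fun_prop)
    have hV34 : V ≤ (X : ℝ) ^ (3 / 4 : ℝ) := by
      rw [hV]
      exact Real.rpow_le_rpow_of_exponent_le hXr (by linarith)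
    have hA2 : A ⊆ Set.Icc (-(X : ℝ) ^ (3 / 4 : ℝ)) ((X : ℝ) ^ (3 / 4 : ℝ)) := by
      rintro t ⟨-, h1, h2⟩
      exact ⟨by linarith, by linarith⟩
    have hA3 : volume A ≤ ENNReal.ofReal ((X : ℝ) ^ (η / 8)) :=
      (measure_mono Set.inter_subset_left).trans b2
    have k1 := hB2 X o c A g2 ho hc hAm hA2 hA3
    obtain ⟨t1, t2⟩ := SPB_tail (fun t => GO o c w X t) (SPB_GO_cont o c w X) (9 * X)
      (SPB_GO_le o c η ho w hw X) T V hT0 hV0
    have hdisj : Disjoint A B := by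
      rw [Set.disjoint_left]
      rintro t ⟨-, h1, h2⟩ h3
      have h4 : |t| ≤ V := abs_le.2 ⟨h1, h2⟩
      exact absurd h3 (not_lt.2 h4)
    have hsub : (Gd c η X)ᶜ ⊆ A ∪ B := by
      intro t ht
      by_cases hb : V < |t|
      · exact Or.inr hb
      · left
        rw [not_lt] at hb
        refine ⟨?_, (abs_le.1 hb).1, (abs_le.1 hb).2⟩
        by_contra hcon
        apply ht
        unfold Bd at hcon
        simp only [Set.mem_ofPred_eq, not_or, not_exists, not_and, not_le] at hcon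
        exact ⟨hcon.1.le, hb, fun ρ hρ => (hcon.2 ρ hρ).le⟩
    have k2 : ∫ t in (Gd c η X)ᶜ, Real.exp (-(t ^ 2 / (2 * T ^ 2))) * ‖GO o c w X t‖ ≤
        (∫ t in A, Real.exp (-(t ^ 2 / (2 * T ^ 2))) * ‖GO o c w X t‖) +
          ∫ t in B, Real.exp (-(t ^ 2 / (2 * T ^ 2))) * ‖GO o c w X t‖ := by
      rw [← setIntegral_union hdisj hBm t1.integrableOn t1.integrableOn]
      apply setIntegral_mono_set t1.integrableOn
      · exact Filter.Eventually.of_forall fun t => by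
          simp only [Pi.zero_apply]
          positivity
      · exact Filter.Eventually.of_forall hsub
    have k3 : (∫ t in A, Real.exp (-(t ^ 2 / (2 * T ^ 2))) * ‖GO o c w X t‖) ≤
        ∫ t in A, ‖GO o c w X t‖ := by
      apply setIntegral_mono_on t1.integrableOn _ hAm
      · intro t _
        have : Real.exp (-(t ^ 2 / (2 * T ^ 2))) ≤ 1 := by
          apply Real.exp_le_one_iff.2
          have : 0 ≤ t ^ 2 / (2 * T ^ 2) := by positivity
          linarith
        calc Real.exp (-(t ^ 2 / (2 * T ^ 2))) * ‖GO o c w X t‖ ≤ 1 * ‖GO o c w X t‖ :=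
              mul_le_mul_of_nonneg_right this (norm_nonneg _)
          _ = _ := one_mul _
      · exact ((SPB_GO_cont o c w X).norm.integrableOn_Icc).mono_set Set.inter_subset_right
    have k4 : 9 * (X : ℝ) * (Real.exp (-(V ^ 2 / (4 * T ^ 2))) * (4 * T)) ≤
        (X : ℝ) ^ (-(η / 20)) := by
      have e1 : V ^ 2 / (4 * T ^ 2) = (X : ℝ) ^ (η / 1000) / 4 := by
        have : V ^ 2 = (X : ℝ) ^ (η / 1000) * T ^ 2 := by
          rw [hV, hT, ← Real.rpow_natCast, ← Real.rpow_natCast, ← Real.rpow_mul hX0.le,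
            ← Real.rpow_mul hX0.le, ← Real.rpow_add hX0]
          congr 1
          push_cast
          ring
        rw [this]
        field_simp
      rw [e1]
      have e2 : T ≤ X := by
        rw [hT]
        nth_rewrite 2 [← Real.rpow_one (X : ℝ)]
        exact Real.rpow_le_rpow_of_exponent_le hXr (by linarith)
      have e3 := hthr X g4
      have e4 : (X : ℝ) ^ (3 : ℝ) = X * (X * X) := by
        have : (3 : ℝ) = ((3 : ℕ) : ℝ) := by norm_num
        rw [this, Real.rpow_natCast]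
        ring
      rw [e4] at e3
      have e5 : (X : ℝ)⁻¹ ≤ (X : ℝ) ^ (-(η / 20)) := by
        rw [← Real.rpow_neg_one]
        exact Real.rpow_le_rpow_of_exponent_le hXr (by linarith)
      refine le_trans ?_ e5
      rw [← one_div, le_div_iff₀ hX0]
      calc 9 * (X : ℝ) * (Real.exp (-((X : ℝ) ^ (η / 1000) / 4)) * (4 * T)) * X
          ≤ 9 * (X : ℝ) * (Real.exp (-((X : ℝ) ^ (η / 1000) / 4)) * (4 * X)) * X := by
            gcongr
        _ = 36 * (X * (X * X)) * Real.exp (-((X : ℝ) ^ (η / 1000) / 4)) := by ring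
        _ ≤ 1 := e3
    linarith
  · -- the mean square
    refine le_trans ?_ (hG X o c g3 ho hc)
    have hsub : Gd c η X ⊆ Set.Icc (-V) V := by
      rintro t ⟨-, h2, -⟩
      exact ⟨(abs_le.1 h2).1, (abs_le.1 h2).2⟩
    apply setIntegral_mono_on _ _ (SPB_Gd_meas c η X)
    · intro t _
      have : Real.exp (-(t ^ 2 / T ^ 2)) ≤ 1 := by
        apply Real.exp_le_one_iff.2
        have : 0 ≤ t ^ 2 / T ^ 2 := by positivity
        linarith
      calc Real.exp (-(t ^ 2 / T ^ 2)) * ‖GO o c w X t‖ ^ 2 ≤ 1 * ‖GO o c w X t‖ ^ 2 :=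
            mul_le_mul_of_nonneg_right this (by positivity)
        _ = _ := one_mul _
    · have hc' : Continuous (fun t => Real.exp (-(t ^ 2 / T ^ 2)) * ‖GO o c w X t‖ ^ 2) := by
        have := SPB_GO_cont o c w X
        fun_prop
      exact hc'.integrableOn_Icc.mono_set hsub
    · have hc' : Continuous (fun t => ‖GO o c w X t‖ ^ 2) := by
        have := SPB_GO_cont o c w X
        fun_prop
      exact hc'.integrableOn_Icc.mono_set hsub

end Pool.Agent.Helper48.MV
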