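import Pool.Agent.Helper23.MV.StP
import Pool.Agent.Helper68.MR.Win
import Pool.Agent.Helper48.BK.M_Th
import Pool.Agent.Helper15.AB.M_T1
import Pool.Agent.Helper15.AB.M_WE

/-!
# Project MV, module GSX: primes in short intervals, auxiliary results
-/

set_option autoImplicit false

namespace Pool.Agent.Helper48.MV

open Pool.Agent.Helper23.MV Finset ArithmeticFunction MeasureTheory
open Pool.Agent.Helper48.BK (ex th Sx Apx)
open Pool.Agent.Helper2.MR (ch)
open Pool.Agent.Helper15.AB (IsW)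

namespace GSX

/-- the balanced function -/
noncomputable def bb (o : Option (PCh × ℝ)) (c : PCh) (m : ℕ) : ℂ :=
  ((Λ m : ℝ) : ℂ) * c.ev m - ((mwt o c m : ℝ) : ℂ)

theorem mwt_le (o : Option (PCh × ℝ)) (c : PCh) (η : ℝ) (ho : OKb o η) (m : ℕ)
    (hm : 1 ≤ m) : |mwt o c m| ≤ 2 := by
  have h1 : (1 : ℝ) ≤ m := by exact_mod_cast hm
  have h3 : ∀ δ : ℝ, 0 < δ → 0 ≤ (m : ℝ) ^ (-δ) ∧ (m : ℝ) ^ (-δ) ≤ 1 := fun δ hδ =>
    ⟨Real.rpow_nonneg (by linarith) _,
      Real.rpow_le_one_of_one_le_of_nonpos h1 (by linarith)⟩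
  rcases o with _ | ⟨e, δ⟩
  · unfold mwt
    simp only [sub_zero]
    split_ifs <;> norm_num
  · obtain ⟨-, hδ, -⟩ := ho e δ rfl
    obtain ⟨h4, h5⟩ := h3 δ hδ
    unfold mwt
    simp only
    rw [abs_le]
    split_ifs <;> constructor <;> linarith

theorem ev_le (c : PCh) (m : ℕ) : ‖c.ev m‖ ≤ 1 := DirichletCharacter.norm_le_one _ _

theorem bb_le (o : Option (PCh × ℝ)) (c : PCh) (η : ℝ) (ho : OKb o η) (m : ℕ) (hm : 1 ≤ m) :
    ‖bb o c m‖ ≤ Real.log m + 2 := by
  unfold bb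
  refine (norm_sub_le _ _).trans ?_
  rw [norm_mul, Complex.norm_real, Complex.norm_real, Real.norm_eq_abs, Real.norm_eq_abs,
    abs_of_nonneg vonMangoldt_nonneg]
  have h1 := mwt_le o c η ho m hm
  have h2 : (Λ m : ℝ) * ‖c.ev m‖ ≤ Λ m * 1 := mul_le_mul_of_nonneg_left (ev_le c m)
    vonMangoldt_nonneg
  have h3 : Λ m ≤ Real.log m := vonMangoldt_le_log
  linarith

theorem gm_eq (o : Option (PCh × ℝ)) (c : PCh) (w : ℝ → ℝ) (X m : ℕ) :
    gm o c w X m = ((w (Real.log (m / X)) : ℝ) : ℂ) * bb o c m := rfl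

/-- one window -/
theorem one_win (w : ℝ → ℝ) (hw : IsW w) (M : ℝ) (hM0 : 0 ≤ M)
    (hM : ∀ s t : ℝ, s ≤ t → |w s - w t| ≤ M * (t - s)) (o : Option (PCh × ℝ)) (c : PCh)
    (X X' H N : ℕ) (R G : ℝ)
    (hX : 1 ≤ X) (hX' : 1 ≤ X') (hN1 : X < 2 * N) (hN2 : N ≤ 3 * X) (hNH : N + H ≤ 3 * X')
    (hG : ∀ m : ℕ, 1 ≤ m → m ≤ 3 * X' → ‖bb o c m‖ ≤ G)
    (hlow : (0.001 : ℝ) ≤ w (Real.log ((N : ℝ) / X')))
    (hsh : ‖∑ m ∈ (Icc 1 (3 * X')).filter (fun m : ℕ => (N : ℝ) < (m : ℝ) ∧ (m : ℝ) ≤ N + H),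
      gm o c w X' m / m‖ ≤ R) :
    ‖∑ m ∈ Ioc N (N + H), bb o c m‖ ≤
      1000 * (3 * X * R + 2 * (H : ℝ) ^ 2 / X * G * (1 + M)) := by
  have hXr : (1 : ℝ) ≤ X := by exact_mod_cast hX
  have hXr' : (1 : ℝ) ≤ X' := by exact_mod_cast hX'
  have hNr : (X : ℝ) < 2 * N := by exact_mod_cast hN1
  have hNr2 : (N : ℝ) ≤ 3 * X := by exact_mod_cast hN2
  have hfil : (Icc 1 (3 * X')).filter (fun m : ℕ => (N : ℝ) < (m : ℝ) ∧ (m : ℝ) ≤ N + H) =
      Ioc N (N + H) := by
    ext m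
    simp only [Finset.mem_filter, Finset.mem_Ioc, Finset.mem_Icc]
    constructor
    · rintro ⟨_, h1, h2⟩
      constructor
      · exact_mod_cast h1
      · exact_mod_cast h2
    · rintro ⟨h1, h2⟩
      refine ⟨⟨by omega, by omega⟩, by exact_mod_cast h1, by exact_mod_cast h2⟩
  rw [hfil] at hsh
  have hR0 : 0 ≤ R := (norm_nonneg _).trans hsh
  set W0 := w (Real.log ((N : ℝ) / X')) with hW0
  have hG0 : 0 ≤ G := (norm_nonneg _).trans (hG 1 le_rfl (by omega))
  have key : (W0 : ℂ) * ∑ m ∈ Ioc N (N + H), bb o c m =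
      (N : ℂ) * ∑ m ∈ Ioc N (N + H), gm o c w X' m / m +
      ∑ m ∈ Ioc N (N + H), (gm o c w X' m * ((((m : ℝ) - N) / m : ℝ) : ℂ) +
        ((W0 - w (Real.log ((m : ℝ) / X')) : ℝ) : ℂ) * bb o c m) := by
    rw [Finset.mul_sum, Finset.mul_sum, ← Finset.sum_add_distrib]
    apply Finset.sum_congr rfl
    intro m hm
    rw [Finset.mem_Ioc] at hm
    have hm0 : (m : ℂ) ≠ 0 := by
      have : m ≠ 0 := by omega
      exact_mod_cast this
    rw [gm_eq]
    push_cast
    field_simp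
    ring
  have hN0 : (0 : ℝ) < N := by linarith
  have hmN : (H : ℝ) / N ≤ 2 * H / X := by
    rw [div_le_div_iff₀ hN0 (by linarith)]
    nlinarith [Nat.cast_nonneg (α := ℝ) H]
  have h2 : ‖∑ m ∈ Ioc N (N + H), (gm o c w X' m * ((((m : ℝ) - N) / m : ℝ) : ℂ) +
        ((W0 - w (Real.log ((m : ℝ) / X')) : ℝ) : ℂ) * bb o c m)‖ ≤
      (H : ℝ) * (2 * (H : ℝ) / X * G * (1 + M)) := by
    have h7 : ∀ m ∈ Ioc N (N + H), ‖gm o c w X' m * ((((m : ℝ) - N) / m : ℝ) : ℂ) +
        ((W0 - w (Real.log ((m : ℝ) / X')) : ℝ) : ℂ) * bb o c m‖ ≤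
        2 * (H : ℝ) / X * G * (1 + M) := by
      intro m hm
      rw [Finset.mem_Ioc] at hm
      have hmn : (N : ℝ) < m := by exact_mod_cast hm.1
      have hmn2 : (m : ℝ) ≤ N + H := by exact_mod_cast hm.2
      have hm0 : (0 : ℝ) < m := by linarith
      have hX0' : (0 : ℝ) < X' := by linarith
      have hb : ‖bb o c m‖ ≤ G := hG m (by omega) (by omega)
      have hg : ‖gm o c w X' m‖ ≤ G := by
        rw [gm_eq, norm_mul, Complex.norm_real, Real.norm_eq_abs, abs_of_nonneg (hw.nonneg _)]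
        calc w (Real.log ((m : ℝ) / X')) * ‖bb o c m‖ ≤ 1 * ‖bb o c m‖ :=
              mul_le_mul_of_nonneg_right (hw.le_one _) (norm_nonneg _)
          _ ≤ G := by linarith
      have hHX0 : (0 : ℝ) ≤ 2 * (H : ℝ) / X := by positivity
      have h9' : ((m : ℝ) - N) / N ≤ 2 * (H : ℝ) / X := by
        refine le_trans ?_ hmN
        apply div_le_div_of_nonneg_right (by linarith) hN0.le
      have h9 : ((m : ℝ) - N) / m ≤ 2 * (H : ℝ) / X := by
        refine le_trans ?_ h9'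
        apply div_le_div_of_nonneg_left (by linarith) hN0 hmn.le
      have h10 : 0 ≤ ((m : ℝ) - N) / m := by apply div_nonneg <;> linarith
      have h11 : Real.log ((m : ℝ) / X') - Real.log ((N : ℝ) / X') ≤ 2 * (H : ℝ) / X := by
        rw [← Real.log_div (by positivity) (by positivity)]
        have h12 : ((m : ℝ) / X') / ((N : ℝ) / X') = m / N := by
          have : (X' : ℝ) ≠ 0 := by linarith
          field_simp
        rw [h12]
        have h13 := Real.log_le_sub_one_of_pos (x := (m : ℝ) / N) (by positivity)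
        have h14 : (m : ℝ) / N - 1 = ((m : ℝ) - N) / N := by field_simp
        linarith
      have h15 : |W0 - w (Real.log ((m : ℝ) / X'))| ≤ M * (2 * (H : ℝ) / X) := by
        refine (hM _ _ ?_).trans (mul_le_mul_of_nonneg_left h11 hM0)
        apply Real.log_le_log (by positivity)
        apply div_le_div_of_nonneg_right hmn.le (by linarith)
      calc ‖gm o c w X' m * ((((m : ℝ) - N) / m : ℝ) : ℂ) +
            ((W0 - w (Real.log ((m : ℝ) / X')) : ℝ) : ℂ) * bb o c m‖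
          ≤ ‖gm o c w X' m‖ * (((m : ℝ) - N) / m) +
            |W0 - w (Real.log ((m : ℝ) / X'))| * ‖bb o c m‖ := by
            refine (norm_add_le _ _).trans ?_
            rw [norm_mul, norm_mul, Complex.norm_real, Complex.norm_real, Real.norm_eq_abs,
              Real.norm_eq_abs, abs_of_nonneg h10]
        _ ≤ G * (2 * (H : ℝ) / X) + M * (2 * (H : ℝ) / X) * G :=
            add_le_add (mul_le_mul hg h9 h10 hG0) (mul_le_mul h15 hb (norm_nonneg _) (by positivity))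
        _ = _ := by ring
    refine (norm_sum_le _ _).trans ((Finset.sum_le_sum h7).trans (le_of_eq ?_))
    rw [Finset.sum_const, Nat.card_Ioc, nsmul_eq_mul, Nat.add_sub_cancel_left]
  have h3 : ‖(W0 : ℂ) * ∑ m ∈ Ioc N (N + H), bb o c m‖ ≤
      3 * X * R + 2 * (H : ℝ) ^ 2 / X * G * (1 + M) := by
    rw [key]
    refine (norm_add_le _ _).trans ?_
    rw [norm_mul, Complex.norm_natCast]
    have h4 : (N : ℝ) * ‖∑ m ∈ Ioc N (N + H), gm o c w X' m / m‖ ≤ 3 * X * R :=
      mul_le_mul hNr2 hsh (norm_nonneg _) (by linarith)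
    have h5 : (H : ℝ) * (2 * (H : ℝ) / X * G * (1 + M)) = 2 * (H : ℝ) ^ 2 / X * G * (1 + M) := by
      ring
    linarith
  rw [norm_mul, Complex.norm_real, Real.norm_eq_abs, abs_of_nonneg (by linarith : (0:ℝ) ≤ W0)] at h3
  have h6 : (0.001 : ℝ) * ‖∑ m ∈ Ioc N (N + H), bb o c m‖ ≤
      W0 * ‖∑ m ∈ Ioc N (N + H), bb o c m‖ := mul_le_mul_of_nonneg_right hlow (norm_nonneg _)
  linarith

/-- double counting -/
theorem dbl (f : ℕ → ℝ) (hf : ∀ n, 0 ≤ f n) (R : Finset ℕ) (B H : ℕ)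
    (hR : ∀ N ∈ R, 1 ≤ N ∧ N + H ≤ B) :
    ∑ N ∈ R, ∑ m ∈ Ico N (N + H), f m ≤ H * ∑ m ∈ Ico 1 B, f m := by
  have h1 : ∀ N, ∑ m ∈ Ico N (N + H), f m = ∑ j ∈ range H, f (N + j) := by
    intro N
    rw [Finset.sum_Ico_eq_sum_range]
    congr 2
    omega
  simp only [h1]
  rw [Finset.sum_comm]
  have h2 : ∀ j ∈ range H, ∑ N ∈ R, f (N + j) ≤ ∑ m ∈ Ico 1 B, f m := by
    intro j hj
    rw [Finset.mem_range] at hj
    have h3 : ∑ N ∈ R, f (N + j) = ∑ m ∈ R.image (fun N => N + j), f m := by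
      rw [Finset.sum_image]
      intro a _ b _ hab
      simpa using hab
    rw [h3]
    apply Finset.sum_le_sum_of_subset_of_nonneg
    · intro m hm
      rw [Finset.mem_image] at hm
      obtain ⟨N, hN, rfl⟩ := hm
      have := hR N hN
      rw [Finset.mem_Ico]
      omega
    · intro m _ _
      exact hf m
  refine (Finset.sum_le_sum h2).trans (le_of_eq ?_)
  rw [Finset.sum_const, Finset.card_range, nsmul_eq_mul]

/-- prime powers -/
theorem pp_sum (R : Finset ℕ) (B H : ℕ) (hB : 3 ≤ B) (hR : ∀ N ∈ R, 1 ≤ N ∧ N + H + 1 ≤ B) (Ct : ℝ)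
    (hth : ∀ n, 0 ≤ th n ∧ th n ≤ Λ n ∧ th n ≤ Real.log n)
    (hth2 : ∀ x : ℕ, 3 ≤ x → ∑ n ∈ Ioc 0 x, (Λ n - th n) ≤ Ct * √x * Real.log x ^ 2) :
    ∑ N ∈ R, (∑ m ∈ Ioc N (N + H), (Λ m - th m)) ^ 2 ≤
      (H : ℝ) ^ 2 * (Ct * √(B : ℝ) * Real.log B ^ 3) := by
  have h0 : ∀ n, 0 ≤ Λ n - th n := fun n => by linarith [(hth n).2.1]
  have h1 : ∀ N ∈ R, (∑ m ∈ Ioc N (N + H), (Λ m - th m)) ^ 2 ≤
      H * ∑ m ∈ Ico N (N + H), (Λ (m + 1) - th (m + 1)) ^ 2 := by
    intro N _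
    have h4 := sq_sum_le_card_mul_sum_sq (s := Ioc N (N + H)) (f := fun m => Λ m - th m)
    rw [Nat.card_Ioc, Nat.add_sub_cancel_left] at h4
    refine h4.trans (le_of_eq ?_)
    congr 1
    have e : Ioc N (N + H) = (Ico N (N + H)).image (fun m => m + 1) := by
      ext m
      simp only [Finset.mem_image, Finset.mem_Ioc, Finset.mem_Ico]
      constructor
      · rintro ⟨h1, h2⟩
        exact ⟨m - 1, by omega, by omega⟩
      · rintro ⟨k, hk, rfl⟩
        omega
    rw [e, Finset.sum_image]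
    intro a _ b _ hab
    simpa using hab
  refine (Finset.sum_le_sum h1).trans ?_
  rw [← Finset.mul_sum]
  have h5 := dbl (fun m => (Λ (m + 1) - th (m + 1)) ^ 2) (fun m => sq_nonneg _) R (B - 1) H
    (fun N hN => ⟨(hR N hN).1, by have := (hR N hN).2; omega⟩)
  have hB1 : (3 : ℝ) ≤ B := by exact_mod_cast hB
  have h6 : ∑ m ∈ Ico 1 (B - 1), (Λ (m + 1) - th (m + 1)) ^ 2 ≤
      Real.log B * (Ct * √(B : ℝ) * Real.log B ^ 2) := by
    have h7 : ∀ m ∈ Ico 1 (B - 1), (Λ (m + 1) - th (m + 1)) ^ 2 ≤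
        Real.log B * (Λ (m + 1) - th (m + 1)) := by
      intro m hm
      rw [Finset.mem_Ico] at hm
      have hm1 : ((m + 1 : ℕ) : ℝ) ≤ B := by
        have : m + 1 ≤ B := by omega
        exact_mod_cast this
      have h8 : Λ (m + 1) ≤ Real.log ((m + 1 : ℕ) : ℝ) := vonMangoldt_le_log
      have h9 : Real.log ((m + 1 : ℕ) : ℝ) ≤ Real.log B :=
        Real.log_le_log (by positivity) hm1
      have h10 := (hth (m + 1)).1
      nlinarith [h0 (m + 1)]
    refine (Finset.sum_le_sum h7).trans ?_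
    rw [← Finset.mul_sum]
    have h11 : ∑ m ∈ Ico 1 (B - 1), (Λ (m + 1) - th (m + 1)) ≤ ∑ n ∈ Ioc 0 B, (Λ n - th n) := by
      have e : ∑ m ∈ Ico 1 (B - 1), (Λ (m + 1) - th (m + 1)) =
          ∑ n ∈ (Ico 1 (B - 1)).image (fun m => m + 1), (Λ n - th n) := by
        rw [Finset.sum_image]
        intro a _ b _ hab
        simpa using hab
      rw [e]
      apply Finset.sum_le_sum_of_subset_of_nonneg
      · intro m hm
        rw [Finset.mem_image] at hm
        obtain ⟨N, hN, rfl⟩ := hm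
        rw [Finset.mem_Ico] at hN
        rw [Finset.mem_Ioc]
        omega
      · intro m _ _
        exact h0 m
    exact mul_le_mul_of_nonneg_left (h11.trans (hth2 B hB)) (Real.log_nonneg (by linarith))
  have hH0 : (0 : ℝ) ≤ H := by positivity
  calc (H : ℝ) * ∑ N ∈ R, ∑ m ∈ Ico N (N + H), (Λ (m + 1) - th (m + 1)) ^ 2
      ≤ H * (H * ∑ m ∈ Ico 1 (B - 1), (Λ (m + 1) - th (m + 1)) ^ 2) :=
        mul_le_mul_of_nonneg_left h5 hH0
    _ ≤ H * (H * (Real.log B * (Ct * √(B : ℝ) * Real.log B ^ 2))) :=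
        mul_le_mul_of_nonneg_left (mul_le_mul_of_nonneg_left h6 hH0) hH0
    _ = _ := by ring

/-- the mean square of the windows -/
theorem mean_win (F : ℝ → ℝ) (hF : Continuous F)
    (hFi : Integrable (fun u => F u ^ 2)) (R : Finset ℕ) (A H : ℕ) (hA : 1 ≤ A) (hH : 1 ≤ H)
    (hR : ∀ N ∈ R, A ≤ N) :
    ∑ N ∈ R, (∫ v in (Real.log N)..(Real.log (N + H)), F v) ^ 2 ≤
      (H : ℝ) ^ 2 / A * ∫ v, F v ^ 2 := by
  have hA' : (1 : ℝ) ≤ A := by exact_mod_cast hA
  have hH' : (1 : ℝ) ≤ H := by exact_mod_cast hH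
  set g : ℕ → ℝ := fun n => ∫ v in (Real.log n)..(Real.log ((n + 1 : ℕ) : ℝ)), F v ^ 2 with hg
  have hii : ∀ a b : ℝ, IntervalIntegrable (fun v => F v ^ 2) volume a b := fun a b =>
    (hF.pow 2).intervalIntegrable _ _
  have hg0 : ∀ n : ℕ, 0 ≤ g n := by
    intro n
    rcases Nat.eq_zero_or_pos n with rfl | hn
    · simp [hg]
    · apply intervalIntegral.integral_nonneg
      · apply Real.log_le_log (by exact_mod_cast hn)
        push_cast
        linarith
      · intro u _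
        positivity
  have h1 : ∀ N ∈ R, (∫ v in (Real.log N)..(Real.log (N + H)), F v) ^ 2 ≤
      (H : ℝ) / A * ∑ m ∈ Ico N (N + H), g m := by
    intro N hN
    have hAN : (A : ℝ) ≤ N := by exact_mod_cast hR N hN
    have hnpos : (0 : ℝ) < N := by linarith
    have hd0 : 0 < Real.log (N + H) - Real.log N := by
      have := Real.log_lt_log hnpos (by linarith : (N : ℝ) < N + H)
      linarith
    have hd1 : Real.log (N + H) - Real.log N ≤ (H : ℝ) / A := by
      have h1 : ((N : ℝ) + H) = N * (1 + H / N) := by field_simp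
      rw [h1, Real.log_mul hnpos.ne' (by positivity)]
      have h2 : Real.log (1 + (H : ℝ) / N) ≤ (H : ℝ) / N := by
        have := Real.log_le_sub_one_of_pos (x := 1 + (H : ℝ) / N) (by positivity)
        linarith
      have h3 : (H : ℝ) / N ≤ (H : ℝ) / A :=
        div_le_div_of_nonneg_left (by linarith) (by linarith) hAN
      linarith
    have h2 := Pool.Agent.Helper68.MR.WinAux.cs F hF (Real.log N)
      (Real.log (N + H) - Real.log N) hd0
    rw [add_sub_cancel] at h2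
    have h3 : ∑ m ∈ Ico N (N + H), g m = ∫ v in (Real.log N)..(Real.log (N + H)), F v ^ 2 := by
      rw [hg, intervalIntegral.sum_integral_adjacent_intervals_Ico (a := fun n : ℕ => Real.log n)
        (by omega) (fun k _ => hii _ _)]
      push_cast
      rfl
    rw [h3]
    refine h2.trans (mul_le_mul_of_nonneg_right hd1 ?_)
    apply intervalIntegral.integral_nonneg (by linarith)
    intro u _
    positivity
  refine (Finset.sum_le_sum h1).trans ?_
  rw [← Finset.mul_sum]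
  have h2 := dbl g hg0 R (R.sup id + H + 1) H (fun N hN => ⟨hA.trans (hR N hN), by
    have : N ≤ R.sup id := Finset.le_sup (f := id) hN
    omega⟩)
  have h3 : ∑ m ∈ Ico 1 (R.sup id + H + 1), g m ≤ ∫ v, F v ^ 2 := by
    rw [hg, intervalIntegral.sum_integral_adjacent_intervals_Ico (a := fun n : ℕ => Real.log n)
      (by omega) (fun k _ => hii _ _)]
    rw [intervalIntegral.integral_of_le]
    · exact setIntegral_le_integral hFi (Filter.Eventually.of_forall fun u => by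
        simp only [Pi.zero_apply]
        positivity)
    · apply Real.log_le_log (by norm_num)
      have : 1 ≤ R.sup id + H + 1 := by omega
      exact_mod_cast this
  calc (H : ℝ) / A * ∑ N ∈ R, ∑ m ∈ Ico N (N + H), g m
      ≤ (H : ℝ) / A * (H * ∫ v, F v ^ 2) :=
        mul_le_mul_of_nonneg_left (h2.trans (mul_le_mul_of_nonneg_left h3 (by linarith)))
          (by positivity)
    _ = _ := by ring

theorem cl_lip (s t : ℝ) (h : s ≤ t) :
    Pool.Agent.Helper15.AB.hT1.cl 1 t - Pool.Agent.Helper15.AB.hT1.cl 1 s ≤ t - s := by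
  unfold Pool.Agent.Helper15.AB.hT1.cl
  rcases le_total 1 t with h1 | h1 <;> rcases le_total 1 s with h2 | h2 <;>
    rcases le_total 0 t with h3 | h3 <;> rcases le_total 0 s with h4 | h4 <;>
    simp [*] <;> linarith

theorem ch_cont (n : ℕ) : Continuous (fun t : ℝ => ch t n) := by
  unfold ch
  fun_prop

theorem Wg_cont (o : Option (PCh × ℝ)) (c : PCh) (w : ℝ → ℝ) (X : ℕ) (T : ℝ) :
    Continuous (fun u => Wg o c w X T u) := by
  unfold Wg
  exact continuous_finsetSum _ fun m _ => by fun_prop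

/-- monotonicity of `ZS` -/
theorem ZS_le (hF : StFin) (o : Option (PCh × ℝ)) (c : PCh) (η T T' Y Y' : ℝ) (hη : η ≤ 1 / 2)
    (hT : T ≤ T') (hY' : 0 < Y') (hY : Y' ≤ Y) : ZS o c η T Y ≤ ZS o c η T' Y' := by
  classical
  obtain ⟨-, h2, h3⟩ := hF
  unfold ZS
  have hsub : Zex o c η T ⊆ Zex o c η T' := by
    intro ρ hρ
    unfold Zex at hρ ⊢
    rw [Finset.mem_filter, h2 c η _ ρ hη] at hρ ⊢
    exact ⟨⟨hρ.1.1, hρ.1.2.1, hρ.1.2.2.trans hT⟩, hρ.2⟩
  calc ∑ ρ ∈ Zex o c η T, (mz c ρ : ℝ) * Y ^ (ρ.re - 1)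
      ≤ ∑ ρ ∈ Zex o c η T, (mz c ρ : ℝ) * Y' ^ (ρ.re - 1) := by
        apply Finset.sum_le_sum
        intro ρ hρ
        unfold Zex at hρ
        rw [Finset.mem_filter, h2 c η _ ρ hη] at hρ
        have h4 := (h3 c ρ hρ.1.1 (by linarith [hρ.1.2.1])).1
        exact mul_le_mul_of_nonneg_left (Real.rpow_le_rpow_of_nonpos hY' hY (by linarith))
          (Nat.cast_nonneg _)
    _ ≤ _ := Finset.sum_le_sum_of_subset_of_nonneg hsub fun ρ _ _ => by positivity

theorem ZS_nonneg (o : Option (PCh × ℝ)) (c : PCh) (η T Y : ℝ) (hY : 0 < Y) : 0 ≤ ZS o c η T Y :=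
  Finset.sum_nonneg fun ρ _ => by positivity

/-- thresholds: `K * log X ^ 4 ≤ X ^ a` -/
theorem thr (K a : ℝ) (ha : 0 < a) : ∃ X0 : ℝ, ∀ X : ℝ, X0 ≤ X → K * (Real.log X + 3) ^ 4 ≤ X ^ a := by
  have h1 : ∀ᶠ X : ℝ in Filter.atTop, (Real.log X) ^ 5 ≤ X ^ a := by
    have h := (isLittleO_log_rpow_rpow_atTop (s := a) 5 ha).bound (c := 1) one_pos
    filter_upwards [h, Filter.eventually_ge_atTop 1] with X hX hX1
    have h0 : 0 ≤ Real.log X := Real.log_nonneg hX1
    rw [one_mul, Real.norm_of_nonneg (Real.rpow_nonneg h0 _),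
      Real.norm_of_nonneg (Real.rpow_nonneg (by linarith) _)] at hX
    rw [← Real.rpow_natCast]
    exact_mod_cast hX
  have h2 : ∀ᶠ X : ℝ in Filter.atTop, max 3 (|K| * 16) ≤ Real.log X :=
    Real.tendsto_log_atTop.eventually_ge_atTop _
  obtain ⟨X0, hX0⟩ := Filter.eventually_atTop.1 (h1.and h2)
  refine ⟨X0, fun X hX => ?_⟩
  obtain ⟨h3, h4⟩ := hX0 X hX
  have h5 : 3 ≤ Real.log X := (le_max_left _ _).trans h4
  have h6 : |K| * 16 ≤ Real.log X := (le_max_right _ _).trans h4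
  calc K * (Real.log X + 3) ^ 4 ≤ |K| * (2 * Real.log X) ^ 4 :=
        mul_le_mul (le_abs_self K) (pow_le_pow_left₀ (by linarith) (by linarith) 4)
          (by positivity) (abs_nonneg _)
    _ = (|K| * 16) * Real.log X ^ 4 := by ring
    _ ≤ Real.log X * Real.log X ^ 4 := mul_le_mul_of_nonneg_right h6 (by positivity)
    _ = Real.log X ^ 5 := by ring
    _ ≤ X ^ a := h3

/-- the pointwise bound and the total, for one `X` -/
theorem total (w : ℝ → ℝ) (hw : IsW w) (M : ℝ) (hM0 : 0 ≤ M)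
    (hM : ∀ s t : ℝ, s ≤ t → |w s - w t| ≤ M * (t - s)) (Ch : ℝ) (hCh : 0 ≤ Ch) (Ct : ℝ)
    (hth : ∀ n, 0 ≤ th n ∧ th n ≤ Λ n ∧ th n ≤ Real.log n)
    (hth2 : ∀ x : ℕ, 3 ≤ x → ∑ n ∈ Ioc 0 x, (Λ n - th n) ≤ Ct * √x * Real.log x ^ 2)
    (o : Option (PCh × ℝ)) (c : PCh) (η : ℝ) (ho : OKb o η) (X X' l s : ℕ) (T κ E : ℝ)
    (hX : 1000000 ≤ X) (hs : s = Nat.sqrt X) (hX' : X' = 17 * X / 20) (hl1 : 1 ≤ l) (hl : l ≤ s)
    (hT : 0 < T) (hκ : 0 ≤ κ)
    (hsha : ∀ x : ℝ, (X' : ℝ) / 2 ≤ x → x + l ≤ 3 * X' →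
      ‖∑ m ∈ (Icc 1 (3 * X')).filter (fun m : ℕ => x < (m : ℝ) ∧ (m : ℝ) ≤ x + l),
        gm o c w X' m / m‖ ≤
      2 * (∫ u in (Real.log x)..(Real.log (x + l)), ‖Wg o c w X' T u‖) + Ch * Real.log X' / T)
    (W2 : ℝ → ℂ) (hW2 : Continuous W2) (hW : ∀ u, ‖Wg o c w X' T u - W2 u‖ ≤ κ)
    (hWi : Integrable (fun u => ‖W2 u‖ ^ 2))
    (hE : 12000 * κ * l + 3000 * X * (Ch * Real.log X / T) + 2000 * (Real.log X + 4) * (1 + M) ≤ E) :
    ∑ y ∈ Icc (X - 6 * s) (2 * X + s),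
      (max 0 (‖∑ m ∈ Ioc y (y + l), (((th m : ℝ) : ℂ) * c.ev m - ((mwt o c m : ℝ) : ℂ))‖ - E)) ^ 2 ≤
    144000000 * (X : ℝ) ^ 2 * (∫ u, ‖W2 u‖ ^ 2) +
      2 * (X * (Ct * √(((3 * X : ℕ) : ℝ)) * Real.log ((3 * X : ℕ) : ℝ) ^ 3)) := by
  have hXr : (1000000 : ℝ) ≤ X := by exact_mod_cast hX
  have hX0 : (0 : ℝ) < X := by linarith
  have hss : s * s ≤ X := by rw [hs]; exact Nat.sqrt_le X
  have hssr : (s : ℝ) * s ≤ X := by exact_mod_cast hss
  have hs1 : (s : ℝ) ≤ X / 1000 := by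
    by_contra hcon
    rw [not_le] at hcon
    have h1 : (1000 : ℝ) < s := by linarith
    have h2 : (1000 : ℝ) * s ≤ s * s := mul_le_mul_of_nonneg_right h1.le (by linarith)
    linarith
  have hsn : 1000 * s ≤ X := by
    have : (1000 : ℝ) * s ≤ X := by linarith
    exact_mod_cast this
  have hlr : (l : ℝ) ≤ s := by exact_mod_cast hl
  have hl2 : (l : ℝ) ^ 2 ≤ X := by
    rw [sq]
    exact (mul_le_mul hlr hlr (Nat.cast_nonneg _) (Nat.cast_nonneg _)).trans hssr
  have hX'1 : 20 * X' ≤ 17 * X := by omega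
  have hX'2 : 17 * X ≤ 20 * X' + 19 := by omega
  have hX'1r : 20 * (X' : ℝ) ≤ 17 * X := by exact_mod_cast hX'1
  have hX'2r : 17 * (X : ℝ) ≤ 20 * X' + 19 := by exact_mod_cast hX'2
  have hX'pos : (0 : ℝ) < X' := by linarith
  have hen : Real.exp (0.1 : ℝ) * 0.9 ≤ 1 := by
    have h3 : (1 : ℝ) - 0.1 ≤ Real.exp (-0.1) := Real.one_sub_le_exp_neg 0.1
    have h4 : Real.exp (0.1 : ℝ) * Real.exp (-0.1) = 1 := by rw [← Real.exp_add]; norm_num
    have h5 := mul_le_mul_of_nonneg_left h3 (Real.exp_pos (0.1 : ℝ)).le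
    rw [h4] at h5
    have h6 : (1 : ℝ) - 0.1 = 0.9 := by norm_num
    rw [h6] at h5
    exact h5
  have hep : (2.4 : ℝ) ≤ Real.exp 0.9 := by
    have h3 : (1 : ℝ) - 0.1 ≤ Real.exp (-0.1) := Real.one_sub_le_exp_neg 0.1
    have h4 : Real.exp (0.9 : ℝ) = Real.exp 1 * Real.exp (-0.1) := by rw [← Real.exp_add]; norm_num
    have h5 := Real.exp_one_gt_d9
    rw [h4]
    calc (2.4 : ℝ) ≤ 2.7 * (1 - 0.1) := by norm_num
      _ ≤ Real.exp 1 * Real.exp (-0.1) :=
        mul_le_mul (by linarith) h3 (by norm_num) (Real.exp_pos _).le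
  have hlog3 : Real.log 3 ≤ 2 := by
    rw [Real.log_le_iff_le_exp (by norm_num)]
    have h5 := Real.add_one_le_exp (2 : ℝ)
    linarith
  have hG : ∀ m : ℕ, 1 ≤ m → m ≤ 3 * X' → ‖bb o c m‖ ≤ Real.log X + 4 := by
    intro m hm hm'
    refine (bb_le o c η ho m hm).trans ?_
    have h1 : (0 : ℝ) < m := by exact_mod_cast hm
    have h2 : (m : ℝ) ≤ 3 * X := by
      have : m ≤ 3 * X := by omega
      exact_mod_cast this
    have h3 := Real.log_le_log h1 h2
    rw [Real.log_mul (by norm_num) hX0.ne'] at h3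
    linarith
  -- one window
  set F : ℝ → ℝ := fun u => ‖W2 u‖ with hFdef
  have hFc : Continuous F := hW2.norm
  have hone : ∀ y ∈ Icc (X - 6 * s) (2 * X + s),
      ‖∑ m ∈ Ioc y (y + l), bb o c m‖ ≤
        6000 * X * (∫ u in (Real.log y)..(Real.log (y + l)), F u) + E := by
    intro y hy
    rw [Finset.mem_Icc] at hy
    have hy1 : X ≤ y + 6 * s := by omega
    have hy1r : (X : ℝ) ≤ y + 6 * s := by exact_mod_cast hy1
    have hy2r : (y : ℝ) ≤ 2 * X + s := by exact_mod_cast hy.2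
    have hy0 : (0 : ℝ) < y := by linarith
    have hl0 : (0 : ℝ) < l := by exact_mod_cast hl1
    have hlow : (0.001 : ℝ) ≤ w (Real.log ((y : ℝ) / X')) := by
      apply hw.lower
      constructor
      · rw [Real.le_log_iff_exp_le (by positivity), le_div_iff₀ hX'pos]
        have h1 := mul_le_mul_of_nonneg_right hen hX'pos.le
        linarith
      · rw [Real.log_le_iff_le_exp (by positivity), div_le_iff₀ hX'pos]
        have h1 := mul_le_mul_of_nonneg_right hep hX'pos.le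
        linarith
    have h1 := hsha y (by linarith) (by linarith)
    have h2 : (∫ u in (Real.log y)..(Real.log (y + l)), ‖Wg o c w X' T u‖) ≤
        (∫ u in (Real.log y)..(Real.log (y + l)), F u) + κ * (2 * l / X) := by
      have hll : Real.log y ≤ Real.log (y + l) := Real.log_le_log hy0 (by linarith)
      have h3 : (∫ u in (Real.log y)..(Real.log (y + l)), ‖Wg o c w X' T u‖) ≤
          ∫ u in (Real.log y)..(Real.log (y + l)), (F u + κ) := by
        apply intervalIntegral.integral_mono_on hll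
        · exact (Wg_cont o c w X' T).norm.intervalIntegrable _ _
        · exact (hFc.add continuous_const).intervalIntegrable _ _
        · intro u _
          have h4 := hW u
          have h5 := norm_sub_norm_le (Wg o c w X' T u) (W2 u)
          simp only [hFdef]
          linarith
      rw [intervalIntegral.integral_add (hFc.intervalIntegrable _ _)
        (continuous_const.intervalIntegrable _ _), intervalIntegral.integral_const,
        smul_eq_mul] at h3
      have h6 : Real.log (y + l) - Real.log y ≤ 2 * l / X := by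
        have h7 : ((y : ℝ) + l) = y * (1 + l / y) := by field_simp
        rw [h7, Real.log_mul hy0.ne' (by positivity)]
        have h8 := Real.log_le_sub_one_of_pos (x := 1 + (l : ℝ) / y) (by positivity)
        have h9 : (l : ℝ) / y ≤ 2 * l / X := by
          rw [div_le_div_iff₀ hy0 hX0]
          have h10 : (X : ℝ) ≤ 2 * y := by linarith
          have h11 := mul_le_mul_of_nonneg_left h10 hl0.le
          linarith
        linarith
      have h7 := mul_le_mul_of_nonneg_left h6 hκ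
      linarith
    have h3 := one_win w hw M hM0 hM o c X X' l y
      (2 * ((∫ u in (Real.log y)..(Real.log (y + l)), F u) + κ * (2 * l / X)) +
        Ch * Real.log X' / T) (Real.log X + 4) (by omega) (by omega) (by omega) (by omega)
      (by omega) hG hlow (by linarith)
    refine h3.trans ?_
    have h4 : Ch * Real.log X' / T ≤ Ch * Real.log X / T := by
      apply div_le_div_of_nonneg_right _ hT.le
      apply mul_le_mul_of_nonneg_left _ hCh
      exact Real.log_le_log hX'pos (by linarith)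
    have h5 : 2 * (l : ℝ) ^ 2 / X * (Real.log X + 4) * (1 + M) ≤
        2 * (Real.log X + 4) * (1 + M) := by
      have h6 : (l : ℝ) ^ 2 / X ≤ 1 := by
        rw [div_le_one hX0]
        exact hl2
      have h7 : 0 ≤ Real.log (X : ℝ) := Real.log_nonneg (by linarith)
      have h8 : 0 ≤ (Real.log X + 4) * (1 + M) := by positivity
      have h9 : 2 * (l : ℝ) ^ 2 / X * (Real.log X + 4) * (1 + M) =
          (l : ℝ) ^ 2 / X * (2 * ((Real.log X + 4) * (1 + M))) := by ring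
      rw [h9]
      have h10 := mul_le_mul_of_nonneg_right h6 (by linarith : 0 ≤ 2 * ((Real.log X + 4) * (1 + M)))
      linarith
    have h6 : 3 * (X : ℝ) * (2 * (κ * (2 * l / X))) = 12 * κ * l := by
      field_simp
      ring
    have h7 : 3 * (X : ℝ) * (Ch * Real.log X' / T) ≤ 3 * X * (Ch * Real.log X / T) :=
      mul_le_mul_of_nonneg_left h4 (by positivity)
    have h8 : ∀ a b c' d e : ℝ, 1000 * (3 * a * (2 * (b + c') + d) + e) =
        6000 * a * b + 1000 * (3 * a * (2 * c')) + 1000 * (3 * a * d) + 1000 * e := by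
      intro a b c' d e
      ring
    rw [h8, h6]
    linarith
  -- pointwise
  have hpt : ∀ y ∈ Icc (X - 6 * s) (2 * X + s),
      (max 0 (‖∑ m ∈ Ioc y (y + l), (((th m : ℝ) : ℂ) * c.ev m - ((mwt o c m : ℝ) : ℂ))‖ - E)) ^ 2 ≤
      72000000 * (X : ℝ) ^ 2 * (∫ u in (Real.log y)..(Real.log (y + l)), F u) ^ 2 +
        2 * (∑ m ∈ Ioc y (y + l), (Λ m - th m)) ^ 2 := by
    intro y hy
    have h1 := hone y hy
    rw [Finset.mem_Icc] at hy
    have hy0 : (0 : ℝ) < y := by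
      have : 0 < y := by omega
      exact_mod_cast this
    set I := ∫ u in (Real.log y)..(Real.log (y + l)), F u with hI
    have hI0 : 0 ≤ I := by
      apply intervalIntegral.integral_nonneg
      · exact Real.log_le_log hy0 (by
          have := Nat.cast_nonneg (α := ℝ) l
          linarith)
      · intro u _
        exact norm_nonneg _
    set P := ∑ m ∈ Ioc y (y + l), (Λ m - th m) with hP
    have hP0 : 0 ≤ P := Finset.sum_nonneg fun m _ => by linarith [(hth m).2.1]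
    have h2 : ‖∑ m ∈ Ioc y (y + l), (((th m : ℝ) : ℂ) * c.ev m - ((mwt o c m : ℝ) : ℂ))‖ ≤
        ‖∑ m ∈ Ioc y (y + l), bb o c m‖ + P := by
      have e : ∑ m ∈ Ioc y (y + l), (((th m : ℝ) : ℂ) * c.ev m - ((mwt o c m : ℝ) : ℂ)) =
          ∑ m ∈ Ioc y (y + l), bb o c m -
            ∑ m ∈ Ioc y (y + l), ((Λ m - th m : ℝ) : ℂ) * c.ev m := by
        rw [← Finset.sum_sub_distrib]
        apply Finset.sum_congr rfl
        intro m _
        unfold bb
        push_cast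
        ring
      rw [e]
      refine (norm_sub_le _ _).trans (add_le_add_right ?_ _)
      refine (norm_sum_le _ _).trans (Finset.sum_le_sum fun m _ => ?_)
      have h0 : 0 ≤ Λ m - th m := by linarith [(hth m).2.1]
      rw [norm_mul, Complex.norm_real, Real.norm_eq_abs, abs_of_nonneg h0]
      calc (Λ m - th m) * ‖c.ev m‖ ≤ (Λ m - th m) * 1 := mul_le_mul_of_nonneg_left (ev_le c m) h0
        _ = _ := mul_one _
    have h3 : max 0 (‖∑ m ∈ Ioc y (y + l), (((th m : ℝ) : ℂ) * c.ev m -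
        ((mwt o c m : ℝ) : ℂ))‖ - E) ≤ 6000 * X * I + P := by
      apply max_le
      · positivity
      · linarith
    refine (pow_le_pow_left₀ (le_max_left _ _) h3 2).trans ?_
    have h4 : ∀ a b c' : ℝ, (6000 * a * b + c') ^ 2 = 72000000 * a ^ 2 * b ^ 2 + 2 * c' ^ 2 -
        (6000 * a * b - c') ^ 2 := by
      intro a b c'
      ring
    rw [h4]
    have h5 := sq_nonneg (6000 * (X : ℝ) * I - P)
    linarith
  refine (Finset.sum_le_sum hpt).trans ?_
  rw [Finset.sum_add_distrib, ← Finset.mul_sum, ← Finset.mul_sum]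
  have m1 := mean_win F hFc hWi (Icc (X - 6 * s) (2 * X + s)) (X - 6 * s) l (by omega) hl1
    (fun N hN => (Finset.mem_Icc.1 hN).1)
  have m2 := pp_sum (Icc (X - 6 * s) (2 * X + s)) (3 * X) l (by omega)
    (fun N hN => by rw [Finset.mem_Icc] at hN; omega) Ct hth hth2
  have hA : (X : ℝ) / 2 ≤ ((X - 6 * s : ℕ) : ℝ) := by
    have h1 : X ≤ 2 * (X - 6 * s) := by omega
    have h2 : (X : ℝ) ≤ 2 * ((X - 6 * s : ℕ) : ℝ) := by exact_mod_cast h1
    linarith
  have hJ : 0 ≤ ∫ v, F v ^ 2 := integral_nonneg fun v => by positivity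
  have m3 : (l : ℝ) ^ 2 / ((X - 6 * s : ℕ) : ℝ) ≤ 2 := by
    rw [div_le_iff₀ (by linarith)]
    linarith
  have m4 : ∑ y ∈ Icc (X - 6 * s) (2 * X + s),
      (∫ u in (Real.log y)..(Real.log (y + l)), F u) ^ 2 ≤ 2 * ∫ v, F v ^ 2 :=
    m1.trans (mul_le_mul_of_nonneg_right m3 hJ)
  have m5 : ∑ N ∈ Icc (X - 6 * s) (2 * X + s), (∑ m ∈ Ioc N (N + l), (Λ m - th m)) ^ 2 ≤
      X * (Ct * √(((3 * X : ℕ) : ℝ)) * Real.log ((3 * X : ℕ) : ℝ) ^ 3) := by
    refine m2.trans (mul_le_mul_of_nonneg_right hl2 ?_)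
    have h1 := hth2 (3 * X) (by omega)
    have h2 : 0 ≤ ∑ n ∈ Ioc 0 (3 * X), (Λ n - th n) :=
      Finset.sum_nonneg fun m _ => by linarith [(hth m).2.1]
    have h3 : 0 ≤ Real.log ((3 * X : ℕ) : ℝ) := Real.log_natCast_nonneg _
    have h4 := mul_nonneg (h2.trans h1) h3
    calc (0 : ℝ) ≤ _ := h4
      _ = _ := by ring
  have m6 : 72000000 * (X : ℝ) ^ 2 * ∑ y ∈ Icc (X - 6 * s) (2 * X + s),
      (∫ u in (Real.log y)..(Real.log (y + l)), F u) ^ 2 ≤
      72000000 * (X : ℝ) ^ 2 * (2 * ∫ v, F v ^ 2) := mul_le_mul_of_nonneg_left m4 (by positivity)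
  linarith

end GSX

end Pool.Agent.Helper48.MV
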